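import Mathlib
import Pool.Agent.H28.Z12.Good2
import Pool.Agent.H28.Z12.TR.B0
import Pool.Agent.H28.Z12.TR.B1
import Pool.Agent.H28.Z12.TR.B2

/-!
The trivial sign patterns: a row or a column of one sign, two equal rows (MP_1e71f9_co).
-/

set_option autoImplicit false
set_option maxRecDepth 100000

namespace Pool.Agent.H28.Z12.TR

open Pool.Agent.H77.Z12 Pool.Agent.H28.Z12 Pool.Agent.H13.Z12 Pool.Agent.H28.Z12.Cov

theorem both {m w M W : ℕ} (h1 : Good M W) (h2 : Good M w) (e1 : m ||| 2 ^ 36 = M)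
    (e2 : w ||| 2 ^ 36 = W) (hw : w < 2 ^ 36) : Good m w := by
  subst e1 e2
  exact good_both h1 h2 hw

theorem Ra1_ref : RefX 68719476799 68719476799 [] (nat_lit 0) (nat_lit 0) := by
  refine refX_of (U := Ra1_U) (off := (nat_lit 0)) (lits := (nat_lit 0)) (by decide +kernel) (by decide +kernel)
    (by decide +kernel) (by decide +kernel) fun χ T hM hS s0 => ?_
  have hG := gen_one hM hS
  have s1 := St.step hG (ent := Ra1_0_ent) (bt := Ra1_0_bt) (nb := nat_lit 390) (poff := (nat_lit 0)) (plits := (nat_lit 0)) (np := nat_lit 0)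
    (off := Ra1_0_off) (lits := Ra1_0_lits) (n := nat_lit 831) (c := nat_lit 389) (hs := Ra1_0_hs) (U := Ra1_U) (V := Ra1_0_V)
    (coff := Ra1_0_coff) (clits := Ra1_0_clits) (nc := nat_lit 1) (ix := Ra1_0_ix) rfl rfl Ra1_0_chk s0
  exact St.last (V := Ra1_0_V) s1

theorem Ra0_ref : RefX 68719476799 63 [] (nat_lit 0) (nat_lit 0) := by
  refine refX_of (U := Ra0_U) (off := (nat_lit 0)) (lits := (nat_lit 0)) (by decide +kernel) (by decide +kernel)
    (by decide +kernel) (by decide +kernel) fun χ T hM hS s0 => ?_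
  have hG := gen_one hM hS
  have s1 := St.step hG (ent := Ra0_0_ent) (bt := Ra0_0_bt) (nb := nat_lit 390) (poff := (nat_lit 0)) (plits := (nat_lit 0)) (np := nat_lit 0)
    (off := Ra0_0_off) (lits := Ra0_0_lits) (n := nat_lit 715) (c := nat_lit 389) (hs := Ra0_0_hs) (U := Ra0_U) (V := Ra0_0_V)
    (coff := Ra0_0_coff) (clits := Ra0_0_clits) (nc := nat_lit 1) (ix := Ra0_0_ix) rfl rfl Ra0_0_chk s0
  exact St.last (V := Ra0_0_V) s1

theorem Rb1_ref : RefX 68719476799 68719476736 [] (nat_lit 0) (nat_lit 0) := by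
  refine refX_of (U := Rb1_U) (off := (nat_lit 0)) (lits := (nat_lit 0)) (by decide +kernel) (by decide +kernel)
    (by decide +kernel) (by decide +kernel) fun χ T hM hS s0 => ?_
  have hG := gen_one hM hS
  have s1 := St.step hG (ent := Rb1_0_ent) (bt := Rb1_0_bt) (nb := nat_lit 399) (poff := (nat_lit 0)) (plits := (nat_lit 0)) (np := nat_lit 0)
    (off := Rb1_0_off) (lits := Rb1_0_lits) (n := nat_lit 647) (c := nat_lit 398) (hs := Rb1_0_hs) (U := Rb1_U) (V := Rb1_0_V)
    (coff := Rb1_0_coff) (clits := Rb1_0_clits) (nc := nat_lit 1) (ix := Rb1_0_ix) rfl rfl Rb1_0_chk s0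
  exact St.last (V := Rb1_0_V) s1

theorem Rb0_ref : RefX 68719476799 0 [] (nat_lit 0) (nat_lit 0) := by
  refine refX_of (U := Rb0_U) (off := (nat_lit 0)) (lits := (nat_lit 0)) (by decide +kernel) (by decide +kernel)
    (by decide +kernel) (by decide +kernel) fun χ T hM hS s0 => ?_
  have hG := gen_one hM hS
  have s1 := St.step hG (ent := Rb0_0_ent) (bt := Rb0_0_bt) (nb := nat_lit 403) (poff := (nat_lit 0)) (plits := (nat_lit 0)) (np := nat_lit 0)
    (off := Rb0_0_off) (lits := Rb0_0_lits) (n := nat_lit 645) (c := nat_lit 402) (hs := Rb0_0_hs) (U := Rb0_U) (V := Rb0_0_V)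
    (coff := Rb0_0_coff) (clits := Rb0_0_clits) (nc := nat_lit 1) (ix := Rb0_0_ix) rfl rfl Rb0_0_chk s0
  exact St.last (V := Rb0_0_V) s1

theorem Ca1_ref : RefX 69810262081 69810262081 [] (nat_lit 0) (nat_lit 0) := by
  refine refX_of (U := Ca1_U) (off := (nat_lit 0)) (lits := (nat_lit 0)) (by decide +kernel) (by decide +kernel)
    (by decide +kernel) (by decide +kernel) fun χ T hM hS s0 => ?_
  have hG := gen_one hM hS
  have s1 := St.step hG (ent := Ca1_0_ent) (bt := Ca1_0_bt) (nb := nat_lit 384) (poff := (nat_lit 0)) (plits := (nat_lit 0)) (np := nat_lit 0)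
    (off := Ca1_0_off) (lits := Ca1_0_lits) (n := nat_lit 680) (c := nat_lit 383) (hs := Ca1_0_hs) (U := Ca1_U) (V := Ca1_0_V)
    (coff := Ca1_0_coff) (clits := Ca1_0_clits) (nc := nat_lit 1) (ix := Ca1_0_ix) rfl rfl Ca1_0_chk s0
  exact St.last (V := Ca1_0_V) s1

theorem Ca0_ref : RefX 69810262081 1090785345 [] (nat_lit 0) (nat_lit 0) := by
  refine refX_of (U := Ca0_U) (off := (nat_lit 0)) (lits := (nat_lit 0)) (by decide +kernel) (by decide +kernel)
    (by decide +kernel) (by decide +kernel) fun χ T hM hS s0 => ?_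
  have hG := gen_one hM hS
  have s1 := St.step hG (ent := Ca0_0_ent) (bt := Ca0_0_bt) (nb := nat_lit 419) (poff := (nat_lit 0)) (plits := (nat_lit 0)) (np := nat_lit 0)
    (off := Ca0_0_off) (lits := Ca0_0_lits) (n := nat_lit 662) (c := nat_lit 418) (hs := Ca0_0_hs) (U := Ca0_U) (V := Ca0_0_V)
    (coff := Ca0_0_coff) (clits := Ca0_0_clits) (nc := nat_lit 1) (ix := Ca0_0_ix) rfl rfl Ca0_0_chk s0
  exact St.last (V := Ca0_0_V) s1

theorem Cb1_ref : RefX 69810262081 68719476736 [] (nat_lit 0) (nat_lit 0) := by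
  refine refX_of (U := Cb1_U) (off := (nat_lit 0)) (lits := (nat_lit 0)) (by decide +kernel) (by decide +kernel)
    (by decide +kernel) (by decide +kernel) fun χ T hM hS s0 => ?_
  have hG := gen_one hM hS
  have s1 := St.step hG (ent := Cb1_0_ent) (bt := Cb1_0_bt) (nb := nat_lit 434) (poff := (nat_lit 0)) (plits := (nat_lit 0)) (np := nat_lit 0)
    (off := Cb1_0_off) (lits := Cb1_0_lits) (n := nat_lit 721) (c := nat_lit 433) (hs := Cb1_0_hs) (U := Cb1_U) (V := Cb1_0_V)
    (coff := Cb1_0_coff) (clits := Cb1_0_clits) (nc := nat_lit 1) (ix := Cb1_0_ix) rfl rfl Cb1_0_chk s0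
  exact St.last (V := Cb1_0_V) s1

theorem Cb0_ref : RefX 69810262081 0 [] (nat_lit 0) (nat_lit 0) := by
  refine refX_of (U := Cb0_U) (off := (nat_lit 0)) (lits := (nat_lit 0)) (by decide +kernel) (by decide +kernel)
    (by decide +kernel) (by decide +kernel) fun χ T hM hS s0 => ?_
  have hG := gen_one hM hS
  have s1 := St.step hG (ent := Cb0_0_ent) (bt := Cb0_0_bt) (nb := nat_lit 380) (poff := (nat_lit 0)) (plits := (nat_lit 0)) (np := nat_lit 0)
    (off := Cb0_0_off) (lits := Cb0_0_lits) (n := nat_lit 640) (c := nat_lit 379) (hs := Cb0_0_hs) (U := Cb0_U) (V := Cb0_0_V)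
    (coff := Cb0_0_coff) (clits := Cb0_0_clits) (nc := nat_lit 1) (ix := Cb0_0_ix) rfl rfl Cb0_0_chk s0
  exact St.last (V := Cb0_0_V) s1

theorem E21_ref : RefX 68719480831 68719476931 [] (nat_lit 0) (nat_lit 0) := by
  refine refX_of (U := E21_U) (off := (nat_lit 0)) (lits := (nat_lit 0)) (by decide +kernel) (by decide +kernel)
    (by decide +kernel) (by decide +kernel) fun χ T hM hS s0 => ?_
  have hG := gen_one hM hS
  have s1 := St.step hG (ent := E21_0_ent) (bt := E21_0_bt) (nb := nat_lit 74) (poff := (nat_lit 0)) (plits := (nat_lit 0)) (np := nat_lit 0)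
    (off := E21_0_off) (lits := E21_0_lits) (n := nat_lit 72) (c := nat_lit 73) (hs := E21_0_hs) (U := E21_U) (V := E21_0_V)
    (coff := E21_0_coff) (clits := E21_0_clits) (nc := nat_lit 1) (ix := E21_0_ix) rfl rfl E21_0_chk s0
  exact St.last (V := E21_0_V) s1

theorem E20_ref : RefX 68719480831 195 [] (nat_lit 0) (nat_lit 0) := by
  refine refX_of (U := E20_U) (off := (nat_lit 0)) (lits := (nat_lit 0)) (by decide +kernel) (by decide +kernel)
    (by decide +kernel) (by decide +kernel) fun χ T hM hS s0 => ?_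
  have hG := gen_one hM hS
  have s1 := St.step hG (ent := E20_0_ent) (bt := E20_0_bt) (nb := nat_lit 74) (poff := (nat_lit 0)) (plits := (nat_lit 0)) (np := nat_lit 0)
    (off := E20_0_off) (lits := E20_0_lits) (n := nat_lit 72) (c := nat_lit 73) (hs := E20_0_hs) (U := E20_U) (V := E20_0_V)
    (coff := E20_0_coff) (clits := E20_0_clits) (nc := nat_lit 1) (ix := E20_0_ix) rfl rfl E20_0_chk s0
  exact St.last (V := E20_0_V) s1

theorem E31_ref : RefX 68719480831 68719477191 [] (nat_lit 0) (nat_lit 0) := by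
  refine refX_of (U := E31_U) (off := (nat_lit 0)) (lits := (nat_lit 0)) (by decide +kernel) (by decide +kernel)
    (by decide +kernel) (by decide +kernel) fun χ T hM hS s0 => ?_
  have hG := gen_one hM hS
  have s1 := St.step hG (ent := E31_0_ent) (bt := E31_0_bt) (nb := nat_lit 74) (poff := (nat_lit 0)) (plits := (nat_lit 0)) (np := nat_lit 0)
    (off := E31_0_off) (lits := E31_0_lits) (n := nat_lit 72) (c := nat_lit 73) (hs := E31_0_hs) (U := E31_U) (V := E31_0_V)
    (coff := E31_0_coff) (clits := E31_0_clits) (nc := nat_lit 1) (ix := E31_0_ix) rfl rfl E31_0_chk s0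
  exact St.last (V := E31_0_V) s1

theorem E30_ref : RefX 68719480831 455 [] (nat_lit 0) (nat_lit 0) := by
  refine refX_of (U := E30_U) (off := (nat_lit 0)) (lits := (nat_lit 0)) (by decide +kernel) (by decide +kernel)
    (by decide +kernel) (by decide +kernel) fun χ T hM hS s0 => ?_
  have hG := gen_one hM hS
  have s1 := St.step hG (ent := E30_0_ent) (bt := E30_0_bt) (nb := nat_lit 74) (poff := (nat_lit 0)) (plits := (nat_lit 0)) (np := nat_lit 0)
    (off := E30_0_off) (lits := E30_0_lits) (n := nat_lit 72) (c := nat_lit 73) (hs := E30_0_hs) (U := E30_U) (V := E30_0_V)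
    (coff := E30_0_coff) (clits := E30_0_clits) (nc := nat_lit 1) (ix := E30_0_ix) rfl rfl E30_0_chk s0
  exact St.last (V := E30_0_V) s1

theorem E41_ref : RefX 68719480831 68719477711 [] (nat_lit 0) (nat_lit 0) := by
  refine refX_of (U := E41_U) (off := (nat_lit 0)) (lits := (nat_lit 0)) (by decide +kernel) (by decide +kernel)
    (by decide +kernel) (by decide +kernel) fun χ T hM hS s0 => ?_
  have hG := gen_one hM hS
  have s1 := St.step hG (ent := E41_0_ent) (bt := E41_0_bt) (nb := nat_lit 74) (poff := (nat_lit 0)) (plits := (nat_lit 0)) (np := nat_lit 0)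
    (off := E41_0_off) (lits := E41_0_lits) (n := nat_lit 72) (c := nat_lit 73) (hs := E41_0_hs) (U := E41_U) (V := E41_0_V)
    (coff := E41_0_coff) (clits := E41_0_clits) (nc := nat_lit 1) (ix := E41_0_ix) rfl rfl E41_0_chk s0
  exact St.last (V := E41_0_V) s1

theorem E40_ref : RefX 68719480831 975 [] (nat_lit 0) (nat_lit 0) := by
  refine refX_of (U := E40_U) (off := (nat_lit 0)) (lits := (nat_lit 0)) (by decide +kernel) (by decide +kernel)
    (by decide +kernel) (by decide +kernel) fun χ T hM hS s0 => ?_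
  have hG := gen_one hM hS
  have s1 := St.step hG (ent := E40_0_ent) (bt := E40_0_bt) (nb := nat_lit 74) (poff := (nat_lit 0)) (plits := (nat_lit 0)) (np := nat_lit 0)
    (off := E40_0_off) (lits := E40_0_lits) (n := nat_lit 72) (c := nat_lit 73) (hs := E40_0_hs) (U := E40_U) (V := E40_0_V)
    (coff := E40_0_coff) (clits := E40_0_clits) (nc := nat_lit 1) (ix := E40_0_ix) rfl rfl E40_0_chk s0
  exact St.last (V := E40_0_V) s1

theorem E51_ref : RefX 68719480831 68719478751 [] (nat_lit 0) (nat_lit 0) := by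
  refine refX_of (U := E51_U) (off := (nat_lit 0)) (lits := (nat_lit 0)) (by decide +kernel) (by decide +kernel)
    (by decide +kernel) (by decide +kernel) fun χ T hM hS s0 => ?_
  have hG := gen_one hM hS
  have s1 := St.step hG (ent := E51_0_ent) (bt := E51_0_bt) (nb := nat_lit 74) (poff := (nat_lit 0)) (plits := (nat_lit 0)) (np := nat_lit 0)
    (off := E51_0_off) (lits := E51_0_lits) (n := nat_lit 72) (c := nat_lit 73) (hs := E51_0_hs) (U := E51_U) (V := E51_0_V)
    (coff := E51_0_coff) (clits := E51_0_clits) (nc := nat_lit 1) (ix := E51_0_ix) rfl rfl E51_0_chk s0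
  exact St.last (V := E51_0_V) s1

theorem E50_ref : RefX 68719480831 2015 [] (nat_lit 0) (nat_lit 0) := by
  refine refX_of (U := E50_U) (off := (nat_lit 0)) (lits := (nat_lit 0)) (by decide +kernel) (by decide +kernel)
    (by decide +kernel) (by decide +kernel) fun χ T hM hS s0 => ?_
  have hG := gen_one hM hS
  have s1 := St.step hG (ent := E50_0_ent) (bt := E50_0_bt) (nb := nat_lit 74) (poff := (nat_lit 0)) (plits := (nat_lit 0)) (np := nat_lit 0)
    (off := E50_0_off) (lits := E50_0_lits) (n := nat_lit 72) (c := nat_lit 73) (hs := E50_0_hs) (U := E50_U) (V := E50_0_V)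
    (coff := E50_0_coff) (clits := E50_0_clits) (nc := nat_lit 1) (ix := E50_0_ix) rfl rfl E50_0_chk s0
  exact St.last (V := E50_0_V) s1

theorem gRa : Good 63 63 := both (good_of_ref_nil Ra1_ref) (good_of_ref_nil Ra0_ref) (by decide +kernel) (by decide +kernel) (by norm_num)

theorem gRb : Good 63 0 := both (good_of_ref_nil Rb1_ref) (good_of_ref_nil Rb0_ref) (by decide +kernel) (by decide +kernel) (by norm_num)

theorem gCa : Good 1090785345 1090785345 := both (good_of_ref_nil Ca1_ref) (good_of_ref_nil Ca0_ref) (by decide +kernel) (by decide +kernel) (by norm_num)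

theorem gCb : Good 1090785345 0 := both (good_of_ref_nil Cb1_ref) (good_of_ref_nil Cb0_ref) (by decide +kernel) (by decide +kernel) (by norm_num)

theorem gE2 : Good 4095 195 := both (good_of_ref_nil E21_ref) (good_of_ref_nil E20_ref) (by decide +kernel) (by decide +kernel) (by norm_num)

theorem gE3 : Good 4095 455 := both (good_of_ref_nil E31_ref) (good_of_ref_nil E30_ref) (by decide +kernel) (by decide +kernel) (by norm_num)

theorem gE4 : Good 4095 975 := both (good_of_ref_nil E41_ref) (good_of_ref_nil E40_ref) (by decide +kernel) (by decide +kernel) (by norm_num)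

theorem gE5 : Good 4095 2015 := both (good_of_ref_nil E51_ref) (good_of_ref_nil E50_ref) (by decide +kernel) (by decide +kernel) (by norm_num)

theorem tR : Good2 63 63 := good2_of_pair gRa gRb (by decide +kernel)

theorem tC : Good2 1090785345 1090785345 := good2_of_pair gCa gCb (by decide +kernel)

end Pool.Agent.H28.Z12.TR
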